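import Mathlib
import Pool.Agent.Lib.MP_5bc52d_co.Top
import Pool.Agent.Lib.MP_5bc52d_co.Cyc.Deg
import Pool.Agent.Lib.MP_5bc52d_co.Lin.Leib

/-!
# Homogeneous quasisymmetric functions and the splitting maps
-/

open Finset Polynomial

namespace Pool.Agent.Lib.MP_5bc52d_co.Cut

open Splitting Cyc

/-- homogeneous elements of degree `d` -/
def homQ (Q : Subring R) (d : ℕ) : AddSubgroup Q where
  carrier := {f | ∀ m : ℕ →₀ ℕ, deg m ≠ d → MvPowerSeries.coeff m (f : R) = 0}
  zero_mem' := fun m _ => by simp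
  add_mem' := by
    intro f g hf hg m hm
    change MvPowerSeries.coeff m ((f : R) + (g : R)) = _
    rw [map_add, hf m hm, hg m hm, add_zero]
  neg_mem' := by
    intro f hf m hm
    change MvPowerSeries.coeff m (-(f : R)) = _
    rw [map_neg, hf m hm, neg_zero]

variable {Q : Subring R}

theorem mem_homQ {d : ℕ} {f : Q} :
    f ∈ homQ Q d ↔ ∀ m : ℕ →₀ ℕ, deg m ≠ d → MvPowerSeries.coeff m (f : R) = 0 := Iff.rfl

theorem deg_eq_zero {m : ℕ →₀ ℕ} (h : deg m = 0) : m = 0 := by
  rw [deg, Finsupp.sum, Finset.sum_eq_zero_iff] at h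
  ext i
  by_cases hi : i ∈ m.support
  · exact h i hi
  · simpa using hi

theorem isUnit_of_homQ_zero (hQ : ∀ F : R, F ∈ Q ↔ IsQS F) {f : Q} (hf : f ∈ homQ Q 0)
    (h0 : f ≠ 0) : IsUnit f :=
  isUnit_of_const hQ f h0 (fun m hm => hf m (fun h => hm (deg_eq_zero h)))

theorem homQ_unique {a b : ℕ} {f : Q} (h0 : f ≠ 0) (ha : f ∈ homQ Q a) (hb : f ∈ homQ Q b) :
    a = b := by
  by_contra hab
  apply h0
  apply Subtype.ext
  change (f : R) = 0
  ext m
  rw [map_zero]
  by_cases h : deg m = a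
  · exact hb m (fun h' => hab (h ▸ h'))
  · exact ha m h

theorem homQ_mul {a b : ℕ} {f g : Q} (hf : f ∈ homQ Q a) (hg : g ∈ homQ Q b) :
    f * g ∈ homQ Q (a + b) := by
  intro m hm
  change MvPowerSeries.coeff m ((f : R) * (g : R)) = 0
  rw [MvPowerSeries.coeff_mul]
  apply Finset.sum_eq_zero
  intro p hp
  rw [HasAntidiagonal.mem_antidiagonal] at hp
  by_cases h1 : deg p.1 = a
  · rw [hg p.2, mul_zero]
    intro h2
    apply hm
    rw [← hp, deg_add, h1, h2]
  · rw [hf p.1 h1, zero_mul]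

theorem hc_mul_min {F G : R} {a b : ℕ} (ha : ∀ e, e < a → hc e F = 0)
    (hb : ∀ e, e < b → hc e G = 0) : hc (a + b) (F * G) = hc a F * hc b G := by
  rw [hc_mul, Finset.sum_eq_single (a, b)]
  · intro p hp hne
    rw [HasAntidiagonal.mem_antidiagonal] at hp
    rcases lt_trichotomy p.1 a with h | h | h
    · rw [ha p.1 h, zero_mul]
    · exfalso
      exact hne (Prod.ext h (by simp only; omega))
    · rw [hb p.2 (by omega), mul_zero]
  · intro h
    exfalso
    apply h
    rw [HasAntidiagonal.mem_antidiagonal]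

theorem mem_homQ_of_hc {d : ℕ} {f : Q} (h : ∀ e, e ≠ d → hc e (f : R) = 0) : f ∈ homQ Q d := by
  intro m hm
  have := congrArg (MvPowerSeries.coeff m) (h (deg m) hm)
  rw [coeff_hc, if_pos rfl] at this
  exact this

theorem hc_of_mem_homQ {d : ℕ} {f : Q} (h : f ∈ homQ Q d) {e : ℕ} (he : e ≠ d) :
    hc e (f : R) = 0 := by
  ext m
  rw [coeff_hc]
  split_ifs with h1
  · rw [h m (by rw [h1]; exact he)]
    simp
  · simp

/-- the factors of a homogeneous element are homogeneous -/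
theorem homQ_factor (hQ : ∀ F : R, F ∈ Q ↔ IsQS F) {n : ℕ} {f g : Q} (h0 : f * g ≠ 0)
    (h : f * g ∈ homQ Q n) : ∃ a b : ℕ, a + b = n ∧ f ∈ homQ Q a ∧ g ∈ homQ Q b := by
  have hD : IsDomain R := NoZeroDivisors.to_isDomain R
  have hf0 : (f : R) ≠ 0 := by
    intro h1
    apply h0
    apply Subtype.ext
    change (f : R) * (g : R) = 0
    rw [h1, zero_mul]
  have hg0 : (g : R) ≠ 0 := by
    intro h1
    apply h0
    apply Subtype.ext
    change (f : R) * (g : R) = 0
    rw [h1, mul_zero]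
  obtain ⟨NA, hNA⟩ := ((hQ _).mp f.2).1
  obtain ⟨NB, hNB⟩ := ((hQ _).mp g.2).1
  obtain ⟨a, ha1, ha2⟩ := exists_max hf0 hNA
  obtain ⟨b, hb1, hb2⟩ := exists_max hg0 hNB
  obtain ⟨c, hc1, hc2⟩ := exists_min hf0
  obtain ⟨d, hd1, hd2⟩ := exists_min hg0
  have e1 : a + b = n := by
    by_contra hne
    have h1 := hc_of_mem_homQ h hne
    change hc (a + b) ((f : R) * (g : R)) = 0 at h1
    rw [hc_mul_top ha2 hb2] at h1
    exact mul_ne_zero ha1 hb1 h1
  have e2 : c + d = n := by
    by_contra hne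
    have h1 := hc_of_mem_homQ h hne
    change hc (c + d) ((f : R) * (g : R)) = 0 at h1
    rw [hc_mul_min hc2 hd2] at h1
    exact mul_ne_zero hc1 hd1 h1
  have e3 : c ≤ a := by
    by_contra h1
    exact hc1 (ha2 c (by omega))
  have e4 : d ≤ b := by
    by_contra h1
    exact hd1 (hb2 d (by omega))
  have e5 : c = a := by omega
  have e6 : d = b := by omega
  refine ⟨a, b, e1, mem_homQ_of_hc fun e he => ?_, mem_homQ_of_hc fun e he => ?_⟩
  · rcases lt_or_gt_of_ne he with h1 | h1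
    · exact hc2 e (by omega)
    · exact ha2 e h1
  · rcases lt_or_gt_of_ne he with h1 | h1
    · exact hd2 e (by omega)
    · exact hb2 e h1

theorem one_mem_homQ : (1 : Q) ∈ homQ Q 0 := by
  classical
  intro m hm
  change MvPowerSeries.coeff m (1 : R) = 0
  rw [MvPowerSeries.coeff_one, if_neg]
  rintro rfl
  exact hm deg_zero

theorem isUnit_mem_homQ (hQ : ∀ F : R, F ∈ Q ↔ IsQS F) {f : Q} (h : IsUnit f) :
    f ∈ homQ Q 0 := by
  obtain ⟨g, hg⟩ := h.exists_right_inv
  have h1 : f * g ≠ 0 := by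
    rw [hg]
    intro h2
    have h3 := congrArg (fun x : Q => MvPowerSeries.constantCoeff (x : R)) h2
    change MvPowerSeries.constantCoeff (1 : R) = MvPowerSeries.constantCoeff (0 : R) at h3
    rw [map_one, map_zero] at h3
    exact one_ne_zero h3
  obtain ⟨a, b, hab, ha, -⟩ := homQ_factor hQ h1 (n := 0) (by rw [hg]; exact one_mem_homQ)
  have : a = 0 := by omega
  exact this ▸ ha

/-- a ring homomorphism into polynomials whose `k`-th coefficient lowers degrees by `k` -/
def Graded (Q : Subring R) (φ : Q →+* Q[X]) : Prop :=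
  ∀ (d : ℕ) (f : Q), f ∈ homQ Q d → ∀ k : ℕ,
    (k ≤ d → (φ f).coeff k ∈ homQ Q (d - k)) ∧ (d < k → (φ f).coeff k = 0)

theorem bottom_qp_homQ (hQ : ∀ F : R, F ∈ Q ↔ IsQS F) (d : ℕ) (f : Q) (hf : f ∈ homQ Q d)
    (k : ℕ) : (k ≤ d → (bottom hQ).qp k f ∈ homQ Q (d - k)) ∧
      (d < k → (bottom hQ).qp k f = 0) := by
  refine ⟨fun hk m hm => ?_, fun hk => ?_⟩
  · change MvPowerSeries.coeff m (part k (f : R)) = 0
    rw [coeff_part]
    apply hf
    rw [deg, deg_sh]
    rw [deg] at hm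
    omega
  · apply Subtype.ext
    change part k (f : R) = 0
    ext m
    rw [coeff_part, map_zero]
    apply hf
    rw [deg, deg_sh]
    omega

theorem top_qp_homQ (hQ : ∀ F : R, F ∈ Q ↔ IsQS F) (d : ℕ) (f : Q) (hf : f ∈ homQ Q d)
    (k : ℕ) : (k ≤ d → (top hQ).qp k f ∈ homQ Q (d - k)) ∧
      (d < k → (top hQ).qp k f = 0) := by
  refine ⟨fun hk m hm => ?_, fun hk => ?_⟩
  · change MvPowerSeries.coeff m (lpart k (f : R)) = 0
    rw [coeff_lpart]
    apply hf
    rw [deg, deg_last]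
    rw [deg] at hm
    omega
  · apply Subtype.ext
    change lpart k (f : R) = 0
    ext m
    rw [coeff_lpart, map_zero]
    apply hf
    rw [deg, deg_last]
    omega

theorem graded_E {S : Splitting Q} (h : ∀ (d : ℕ) (f : Q), f ∈ homQ Q d → ∀ k : ℕ,
    (k ≤ d → S.qp k f ∈ homQ Q (d - k)) ∧ (d < k → S.qp k f = 0)) : Graded Q S.E := by
  intro d f hf k
  rw [S.coeff_E]
  exact h d f hf k

theorem graded_N {S : Splitting Q} (h : ∀ (d : ℕ) (f : Q), f ∈ homQ Q d → ∀ k : ℕ,
    (k ≤ d → S.qp k f ∈ homQ Q (d - k)) ∧ (d < k → S.qp k f = 0)) : Graded Q S.N := by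
  intro d f hf k
  induction k using Nat.strong_induction_on with
  | _ k ih =>
    have h1 : (S.Ehat (S.N f)).coeff k = (C f : Q[X]).coeff k := by rw [S.Ehat_N]
    rw [coeff_Ehat] at h1
    have h2 : ((0 : ℕ), k) ∈ antidiagonal k := by
      rw [HasAntidiagonal.mem_antidiagonal]
      simp
    rw [← Finset.add_sum_erase _ _ h2, S.qp_zero] at h1
    have h3 := eq_sub_of_add_eq h1
    have hlt : ∀ ij ∈ (antidiagonal k).erase (0, k), ij.2 < k ∧ ij.1 + ij.2 = k := by
      intro ij hij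
      rw [Finset.mem_erase, HasAntidiagonal.mem_antidiagonal] at hij
      refine ⟨?_, hij.2⟩
      by_contra h4
      apply hij.1
      ext
      · simp only; omega
      · simp only; omega
    refine ⟨fun hk => ?_, fun hk => ?_⟩
    · rw [h3]
      apply (homQ Q (d - k)).sub_mem
      · rw [coeff_C]
        split_ifs with h5
        · subst h5
          exact hf
        · exact (homQ Q (d - k)).zero_mem
      · apply (homQ Q (d - k)).sum_mem
        intro ij hij
        obtain ⟨h6, h7⟩ := hlt ij hij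
        have h8 := (ih ij.2 h6).1 (by omega)
        have h9 := (h (d - ij.2) _ h8 ij.1).1 (by omega)
        have h10 : d - ij.2 - ij.1 = d - k := by omega
        rw [h10] at h9
        exact h9
    · rw [h3, coeff_C, if_neg (by omega), Finset.sum_eq_zero, sub_zero]
      intro ij hij
      obtain ⟨h6, h7⟩ := hlt ij hij
      rcases Nat.lt_or_ge d ij.2 with h8 | h8
      · rw [(ih ij.2 h6).2 h8, S.qp_zero']
      · exact (h (d - ij.2) _ ((ih ij.2 h6).1 h8) ij.1).2 (by omega)

end Pool.Agent.Lib.MP_5bc52d_co.Cut
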