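import Mathlib
import Pool.Agent.Lib.MP_5bc52d_co.Cut.Hom

/-!
# The two splittings commute, and agree on leading constants
-/

open Finset Polynomial

namespace Pool.Agent.Lib.MP_5bc52d_co.Cut

open Splitting Cyc

section abs
variable {A : Type*} [CommRing A] (S : Splitting A)

theorem coeff_N_comm (D : A →+ A) (h : ∀ k f, D (S.qp k f) = S.qp k (D f)) (k : ℕ) (f : A) :
    D ((S.N f).coeff k) = (S.N (D f)).coeff k := by
  classical
  set p : A[X] := ∑ i ∈ (S.N f).support, monomial i (D ((S.N f).coeff i)) with hp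
  have hcoeff : ∀ i, p.coeff i = D ((S.N f).coeff i) := by
    intro i
    rw [hp, finsetSum_coeff]
    simp only [coeff_monomial]
    rw [Finset.sum_ite_eq']
    split_ifs with h1
    · rfl
    · rw [Polynomial.mem_support_iff, not_not] at h1
      rw [h1, map_zero]
  have h2 : S.N (D f) = p := by
    apply S.N_eq
    ext1 j
    rw [coeff_Ehat]
    have h3 : (S.Ehat (S.N f)).coeff j = (C f : A[X]).coeff j := by rw [S.Ehat_N]
    rw [coeff_Ehat] at h3
    have h4 := congrArg D h3
    rw [map_sum] at h4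
    have h5 : ∀ ij ∈ antidiagonal j, S.qp ij.1 (p.coeff ij.2) =
        D (S.qp ij.1 ((S.N f).coeff ij.2)) := by
      intro ij _
      rw [hcoeff, h]
    rw [Finset.sum_congr rfl h5, h4, coeff_C, coeff_C]
    split_ifs
    · rfl
    · rw [map_zero]
  rw [h2, hcoeff]

theorem eval_Ehat (p : A[X]) : (S.Ehat p).eval 1 = (S.E (p.eval 1)).eval 1 := by
  induction p using Polynomial.induction_on' with
  | add p q hp hq => rw [map_add, eval_add, hp, hq, eval_add, map_add, eval_add]
  | monomial n a =>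
    rw [← C_mul_X_pow_eq_monomial, map_mul, map_pow, Ehat_C, Ehat_X]
    simp

theorem eval_Nhat (p : A[X]) : (S.Nhat p).eval 1 = (S.N (p.eval 1)).eval 1 := by
  induction p using Polynomial.induction_on' with
  | add p q hp hq => rw [map_add, eval_add, hp, hq, eval_add, map_add, eval_add]
  | monomial n a =>
    rw [← C_mul_X_pow_eq_monomial, map_mul, map_pow]
    have h1 : S.Nhat (C a) = S.N a := by simp [Nhat]
    have h2 : S.Nhat X = X := by simp [Nhat]
    rw [h1, h2]
    simp

/-- `f(w(1) g)` -/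
noncomputable def lE : A →+* A := (Polynomial.evalRingHom 1).comp S.E

/-- its inverse -/
noncomputable def lN : A →+* A := (Polynomial.evalRingHom 1).comp S.N

theorem lE_apply (f : A) : lE S f = (S.E f).eval 1 := rfl

theorem lN_apply (f : A) : lN S f = (S.N f).eval 1 := rfl

theorem lE_lN (f : A) : lE S (lN S f) = f := by
  rw [lE_apply, lN_apply, ← eval_Ehat, S.Ehat_N, eval_C]

theorem lN_lE (f : A) : lN S (lE S f) = f := by
  rw [lN_apply, lE_apply, ← eval_Nhat, S.Nhat_E, eval_C]

theorem lE_comm {S' : Splitting A} (h : ∀ i j f, S.qp i (S'.qp j f) = S'.qp j (S.qp i f))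
    (f : A) : lE S (lE S' f) = lE S' (lE S f) := by
  have h1 : ∀ (T : Splitting A) (g : A) (N : ℕ), (∀ k, N ≤ k → T.qp k g = 0) →
      lE T g = ∑ k ∈ range N, T.qp k g := by
    intro T g N hN
    rw [lE_apply, eval_eq_sum_range' (n := max N ((T.E g).natDegree + 1)) (by omega)]
    simp only [one_pow, mul_one, T.coeff_E]
    symm
    apply Finset.sum_subset
    · intro x hx
      rw [Finset.mem_range] at hx ⊢
      omega
    · intro x _ hx
      rw [Finset.mem_range] at hx
      exact hN x (by omega)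
  have hadd : ∀ (T : Splitting A) (k : ℕ) (s : Finset ℕ) (g : ℕ → A),
      T.qp k (∑ i ∈ s, g i) = ∑ i ∈ s, T.qp k (g i) := by
    intro T k s g
    have := map_sum (AddMonoidHom.mk' (T.qp k) (T.qp_add k)) g s
    exact this
  have hsum : ∀ (T : Splitting A) (s : Finset ℕ) (g : ℕ → A),
      lE T (∑ i ∈ s, g i) = ∑ i ∈ s, lE T (g i) := fun T s g => map_sum _ _ _
  obtain ⟨N, hN⟩ := S.exists_D f
  obtain ⟨N', hN'⟩ := S'.exists_D f
  have e1 : lE S f = ∑ k ∈ range (N + 1), S.qp k f :=
    h1 S f (N + 1) (fun k hk => S.qp_vanish N k f hN (by omega))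
  have e2 : lE S' f = ∑ k ∈ range (N' + 1), S'.qp k f :=
    h1 S' f (N' + 1) (fun k hk => S'.qp_vanish N' k f hN' (by omega))
  rw [e1, e2, hsum, hsum]
  have e3 : ∀ j, lE S (S'.qp j f) = ∑ i ∈ range (N + 1), S.qp i (S'.qp j f) := by
    intro j
    apply h1
    intro k hk
    rw [h, S.qp_vanish N k f hN (by omega), S'.qp_zero']
  have e4 : ∀ i, lE S' (S.qp i f) = ∑ j ∈ range (N' + 1), S'.qp j (S.qp i f) := by
    intro i
    apply h1
    intro k hk
    rw [← h, S'.qp_vanish N' k f hN' (by omega), S.qp_zero']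
  rw [Finset.sum_congr rfl (fun j _ => e3 j), Finset.sum_congr rfl (fun i _ => e4 i),
    Finset.sum_comm]
  apply Finset.sum_congr rfl
  intro i _
  apply Finset.sum_congr rfl
  intro j _
  rw [h]

/-- the inverses take the same values after a functional on which the two maps agree -/
theorem lN_eq {S' : Splitting A} (h : ∀ i j f, S.qp i (S'.qp j f) = S'.qp j (S.qp i f))
    {B : Type*} [CommRing B] (c : A →+* B) (hc : ∀ f, c (lE S f) = c (lE S' f)) (f : A) :
    c (lN S f) = c (lN S' f) := by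
  have h1 : ∀ g, lN S (lE S' g) = lE S' (lN S g) := by
    intro g
    have h2 : lE S' g = lE S (lE S' (lN S g)) := by
      rw [lE_comm S h, lE_lN]
    conv_lhs => rw [h2]
    rw [lN_lE]
  calc c (lN S f) = c (lN S (lE S' (lN S' f))) := by rw [lE_lN]
    _ = c (lE S' (lN S (lN S' f))) := by rw [h1]
    _ = c (lE S (lN S (lN S' f))) := by rw [hc]
    _ = c (lN S' f) := by rw [lE_lN]

end abs

variable {Q : Subring R} (hQ : ∀ F : R, F ∈ Q ↔ IsQS F)

theorem bd_sh_le (i : ℕ) (m : ℕ →₀ ℕ) : ∀ j, sh i m j ≠ 0 → j < bd m + 1 := by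
  intro j hj
  cases j with
  | zero => omega
  | succ j =>
    rw [sh_succ] at hj
    have := lt_bd hj
    omega

theorem qp_comm (i j : ℕ) (f : Q) :
    (bottom hQ).qp i ((top hQ).qp j f) = (top hQ).qp j ((bottom hQ).qp i f) := by
  apply Subtype.ext
  change part i (lpart j (f : R)) = lpart j (part i (f : R))
  ext m
  rw [coeff_part, coeff_lpart, coeff_lpart, coeff_part]
  rw [← coeff_last ((hQ _).mp f.2) (sh i m) j (bd m + 1) (bd_sh_le i m)]
  congr 1
  congr 1
  ext n
  cases n with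
  | zero =>
    rw [sh_zero, Finsupp.add_apply, sh_zero, Finsupp.single_apply, if_neg (by omega), add_zero]
  | succ n =>
    rw [sh_succ, Finsupp.add_apply, Finsupp.add_apply, sh_succ, Finsupp.single_apply,
      Finsupp.single_apply]
    congr 1
    by_cases h : bd m = n
    · rw [if_pos h, if_pos (by omega)]
    · rw [if_neg h, if_neg (by omega)]

/-- constant term -/
noncomputable def cc (Q : Subring R) : Q →+* ℚ := (MvPowerSeries.constantCoeff).comp Q.subtype

theorem cc_apply (f : Q) : cc Q f = MvPowerSeries.coeff 0 (f : R) := by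
  rw [MvPowerSeries.coeff_zero_eq_constantCoeff_apply]
  rfl

theorem cc_qp (k : ℕ) (f : Q) : cc Q ((bottom hQ).qp k f) = cc Q ((top hQ).qp k f) := by
  rw [cc_apply, cc_apply]
  change MvPowerSeries.coeff 0 (part k (f : R)) = MvPowerSeries.coeff 0 (lpart k (f : R))
  rw [coeff_part, coeff_lpart' ((hQ _).mp f.2) k 0 0 (fun i hi => absurd rfl hi)]
  congr 1
  congr 1
  simp [sh]

theorem homQ_zero_ext {f g : Q} (hf : f ∈ homQ Q 0) (hg : g ∈ homQ Q 0)
    (h : cc Q f = cc Q g) : f = g := by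
  apply Subtype.ext
  ext m
  by_cases hm : deg m = 0
  · rw [deg_eq_zero hm, ← cc_apply, ← cc_apply, h]
  · rw [hf m hm, hg m hm]

theorem cc_homQ {d : ℕ} {f : Q} (hf : f ∈ homQ Q d) (hd : d ≠ 0) : cc Q f = 0 := by
  rw [cc_apply]
  apply hf
  rw [deg_zero]
  exact fun h => hd h.symm

theorem cc_eval {φ : Q →+* Q[X]} (hφ : Graded Q φ) {b : ℕ} {f : Q} (hf : f ∈ homQ Q b) :
    cc Q ((φ f).eval 1) = cc Q ((φ f).coeff b) := by
  have h1 : (φ f).natDegree < b + 1 := by
    rw [Nat.lt_succ_iff, Polynomial.natDegree_le_iff_coeff_eq_zero]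
    intro k hk
    exact (hφ b f hf k).2 hk
  rw [eval_eq_sum_range' h1, map_sum, Finset.sum_range_succ]
  simp only [one_pow, mul_one]
  rw [Finset.sum_eq_zero, zero_add]
  intro k hk
  rw [Finset.mem_range] at hk
  exact cc_homQ ((hφ b f hf k).1 (by omega)) (by omega)

theorem cc_lE (f : Q) : cc Q (lE (bottom hQ) f) = cc Q (lE (top hQ) f) := by
  obtain ⟨N, hN⟩ := ((hQ _).mp f.2).1
  have h1 : ∀ T : Splitting Q, (∀ k, N < k → T.qp k f = 0) →
      cc Q (lE T f) = ∑ k ∈ range (N + 1), cc Q (T.qp k f) := by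
    intro T hT
    have h2 : (T.E f).natDegree < N + 1 := by
      rw [Nat.lt_succ_iff, Polynomial.natDegree_le_iff_coeff_eq_zero]
      intro k hk
      rw [T.coeff_E]
      exact hT k hk
    rw [lE_apply, eval_eq_sum_range' h2, map_sum]
    simp only [one_pow, mul_one, T.coeff_E]
  rw [h1 (bottom hQ) (fun k hk => (bottom hQ).qp_vanish N k f hN hk),
    h1 (top hQ) (fun k hk => (top hQ).qp_vanish N k f hN hk)]
  apply Finset.sum_congr rfl
  intro k _
  exact cc_qp hQ k f

theorem pair_E (b : ℕ) (f : Q) (hf : f ∈ homQ Q b) :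
    ((bottom hQ).E f).coeff b = ((top hQ).E f).coeff b := by
  have h1 := ((graded_E (bottom_qp_homQ hQ)) b f hf b).1 le_rfl
  have h2 := ((graded_E (top_qp_homQ hQ)) b f hf b).1 le_rfl
  rw [Nat.sub_self] at h1 h2
  apply homQ_zero_ext h1 h2
  rw [coeff_E, coeff_E]
  exact cc_qp hQ b f

theorem pair_N (b : ℕ) (f : Q) (hf : f ∈ homQ Q b) :
    ((bottom hQ).N f).coeff b = ((top hQ).N f).coeff b := by
  have g1 := graded_N (bottom_qp_homQ hQ)
  have g2 := graded_N (top_qp_homQ hQ)
  have h1 := (g1 b f hf b).1 le_rfl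
  have h2 := (g2 b f hf b).1 le_rfl
  rw [Nat.sub_self] at h1 h2
  apply homQ_zero_ext h1 h2
  rw [← cc_eval g1 hf, ← cc_eval g2 hf]
  exact lN_eq (bottom hQ) (qp_comm hQ) (cc Q) (cc_lE hQ) f

/-- the coefficients of two maps commute -/
def Comm (φ ψ : Q →+* Q[X]) : Prop :=
  ∀ (f : Q) (i j : ℕ), (ψ ((φ f).coeff i)).coeff j = (φ ((ψ f).coeff j)).coeff i

theorem Comm.symm {φ ψ : Q →+* Q[X]} (h : Comm φ ψ) : Comm ψ φ := fun f i j => (h f j i).symm

theorem comm_EE : Comm (bottom hQ).E (top hQ).E := by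
  intro f i j
  rw [coeff_E, coeff_E, coeff_E, coeff_E]
  exact (qp_comm hQ i j f).symm

theorem comm_NE : Comm (bottom hQ).N (top hQ).E := by
  intro f i j
  rw [coeff_E, coeff_E]
  exact coeff_N_comm (bottom hQ) (AddMonoidHom.mk' ((top hQ).qp j) ((top hQ).qp_add j))
    (fun k g => (qp_comm hQ k j g).symm) i f

theorem comm_EN : Comm (bottom hQ).E (top hQ).N := by
  intro f i j
  rw [coeff_E, coeff_E]
  exact (coeff_N_comm (top hQ) (AddMonoidHom.mk' ((bottom hQ).qp i) ((bottom hQ).qp_add i))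
    (fun k g => qp_comm hQ i k g) j f).symm

theorem comm_NN : Comm (bottom hQ).N (top hQ).N := by
  intro f i j
  refine coeff_N_comm (bottom hQ)
    (AddMonoidHom.mk' (fun g => ((top hQ).N g).coeff j) (fun a b => by
      rw [map_add, coeff_add])) ?_ i f
  intro k g
  exact (coeff_N_comm (top hQ) (AddMonoidHom.mk' ((bottom hQ).qp k) ((bottom hQ).qp_add k))
    (fun l g => qp_comm hQ k l g) j g).symm

end Pool.Agent.Lib.MP_5bc52d_co.Cut
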