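import Mathlib

/-!
# Two abstract irreducibility rules for a pair of homomorphisms into polynomials
-/

open Polynomial

namespace Pool.Agent.Lib.MP_5bc52d_co.Cut

variable {A : Type*} [CommRing A]

theorem natDegree_coeff_le {φ ψ : A →+* A[X]}
    (hcomm : ∀ (f : A) (i j : ℕ), (ψ ((φ f).coeff i)).coeff j = (φ ((ψ f).coeff j)).coeff i)
    (f : A) (i : ℕ) : (ψ ((φ f).coeff i)).natDegree ≤ (ψ f).natDegree := by
  rw [Polynomial.natDegree_le_iff_coeff_eq_zero]
  intro j hj
  rw [hcomm, Polynomial.coeff_eq_zero_of_natDegree_lt hj, map_zero, coeff_zero]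

section
variable [IsDomain A]

/-- The corner rule: the leading coefficient under `φ` is irreducible, and has the full degree
under `ψ`. -/
theorem corner_abs (φ ψ : A →+* A[X])
    (hcomm : ∀ (f : A) (i j : ℕ), (ψ ((φ f).coeff i)).coeff j = (φ ((ψ f).coeff j)).coeff i)
    (hpos : ∀ f : A, f ≠ 0 → ¬ IsUnit f → 1 ≤ (ψ f).natDegree)
    (hφ : Function.Injective φ) (hψ : Function.Injective ψ)
    (K : A) (hK0 : K ≠ 0) (hKu : ¬ IsUnit K)
    (hirr : Irreducible (φ K).leadingCoeff)
    (hdeg : (ψ (φ K).leadingCoeff).natDegree = (ψ K).natDegree) : Irreducible K := by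
  have hne : ∀ {χ : A →+* A[X]}, Function.Injective χ → ∀ {f : A}, f ≠ 0 → χ f ≠ 0 :=
    fun h f hf h0 => hf (h (h0.trans (map_zero _).symm))
  have claim : ∀ G H : A, K = G * H → ¬ IsUnit H → IsUnit (φ H).leadingCoeff → False := by
    intro G H hGH hH hu
    have hG0 : G ≠ 0 := by rintro rfl; rw [zero_mul] at hGH; exact hK0 hGH
    have hH0 : H ≠ 0 := by rintro rfl; rw [mul_zero] at hGH; exact hK0 hGH
    have hl : (φ K).leadingCoeff = (φ G).leadingCoeff * (φ H).leadingCoeff := by
      rw [hGH, map_mul, leadingCoeff_mul]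
    have h1 : (ψ (φ H).leadingCoeff).natDegree = 0 :=
      natDegree_eq_zero_of_isUnit (hu.map ψ)
    have h2 : (ψ (φ K).leadingCoeff).natDegree = (ψ (φ G).leadingCoeff).natDegree := by
      rw [hl, map_mul, natDegree_mul, h1, add_zero]
      · exact hne hψ (leadingCoeff_ne_zero.mpr (hne hφ hG0))
      · exact hne hψ (leadingCoeff_ne_zero.mpr (hne hφ hH0))
    have h3 : (ψ (φ G).leadingCoeff).natDegree ≤ (ψ G).natDegree :=
      natDegree_coeff_le hcomm G _
    have h4 : (ψ K).natDegree = (ψ G).natDegree + (ψ H).natDegree := by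
      rw [hGH, map_mul, natDegree_mul (hne hψ hG0) (hne hψ hH0)]
    have h5 := hpos H hH0 hH
    omega
  refine ⟨hKu, fun G H hGH => ?_⟩
  by_contra hcon
  rw [not_or] at hcon
  have hl : (φ K).leadingCoeff = (φ G).leadingCoeff * (φ H).leadingCoeff := by
    rw [hGH, map_mul, leadingCoeff_mul]
  rcases hirr.isUnit_or_isUnit hl with h | h
  · exact claim H G (by rw [hGH, mul_comm]) hcon.1 h
  · exact claim G H hGH hcon.2 h

end

theorem cut_star (ψ : A →+* A[X]) (h0 : ∀ f, (ψ f).coeff 0 = f) {c : A} (hc : ¬ IsUnit c)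
    {K G H : A} (hGH : K = G * H) (S : A[X]) (hS : ψ K = C K + C c * S)
    (hu : IsUnit (ψ H).leadingCoeff) (hd : 1 ≤ (ψ H).natDegree) : c ∣ G := by
  set I : Ideal A := Ideal.span {c} with hI
  have hIt : I ≠ ⊤ := by
    rw [hI, Ne, Ideal.span_singleton_eq_top]
    exact hc
  have hnt : Nontrivial (A ⧸ I) := Ideal.Quotient.nontrivial_iff.mpr hIt
  set q : A →+* A ⧸ I := Ideal.Quotient.mk I with hq
  have hqc : q c = 0 := by
    rw [hq, Ideal.Quotient.eq_zero_iff_mem, hI]
    exact Ideal.mem_span_singleton_self c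
  have h1 : (ψ G).map q * (ψ H).map q = C (q K) := by
    rw [← Polynomial.map_mul, ← map_mul, ← hGH, hS, Polynomial.map_add, Polynomial.map_mul,
      Polynomial.map_C, Polynomial.map_C, hqc, C_0, zero_mul, add_zero]
  have hlu : IsUnit (q (ψ H).leadingCoeff) := hu.map q
  have h2 : ((ψ H).map q).natDegree = (ψ H).natDegree := by
    apply Polynomial.natDegree_map_of_leadingCoeff_ne_zero
    exact hlu.ne_zero
  have h3 : ((ψ H).map q).leadingCoeff = q (ψ H).leadingCoeff := by
    rw [leadingCoeff, h2, coeff_map]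
    rfl
  have h4 : (ψ G).map q = 0 := by
    by_contra hne
    have h5 : ((ψ G).map q).leadingCoeff * ((ψ H).map q).leadingCoeff ≠ 0 := by
      rw [h3]
      intro h6
      apply leadingCoeff_ne_zero.mpr hne
      exact (hlu.mul_left_eq_zero).mp h6
    have h6 := natDegree_mul' h5
    rw [h1, natDegree_C, h2] at h6
    omega
  have h5 := congrArg (fun p => p.coeff 0) h4
  simp only [coeff_map, h0, coeff_zero] at h5
  rw [hq, Ideal.Quotient.eq_zero_iff_mem, hI, Ideal.mem_span_singleton] at h5
  exact h5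

/-- The cut rule: the leading coefficient under `φ` is irreducible, and `ψ K` is constant modulo
a nonunit `c`. -/
theorem cut_abs [IsDomain A] (φ ψ : A →+* A[X]) (h0 : ∀ f, (ψ f).coeff 0 = f)
    (hψ : Function.Injective ψ)
    (K c : A) (hK0 : K ≠ 0) (hKu : ¬ IsUnit K) (hcu : ¬ IsUnit c)
    (hM : ∀ H : A, H ∣ K → ¬ IsUnit H → IsUnit (φ H).leadingCoeff →
      IsUnit (ψ H).leadingCoeff ∧ 1 ≤ (ψ H).natDegree)
    (hirr : Irreducible (φ K).leadingCoeff)
    (hna : ¬ Associated (φ K).leadingCoeff (φ c).leadingCoeff)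
    (S : A[X]) (hS : ψ K = C K + C c * S) : Irreducible K := by
  have hne : ∀ {f : A}, f ≠ 0 → ψ f ≠ 0 :=
    fun {f} hf h0 => hf (hψ (h0.trans (map_zero _).symm))
  have claim : ∀ G H : A, K = G * H → ¬ IsUnit H → IsUnit (φ H).leadingCoeff → False := by
    intro G H hGH hH hu
    obtain ⟨hu', hd'⟩ := hM H ⟨G, by rw [hGH, mul_comm]⟩ hH hu
    obtain ⟨G', hG'⟩ := cut_star ψ h0 hcu hGH S hS hu' hd'
    by_cases hcl : IsUnit (φ c).leadingCoeff
    · have hcK : c ∣ K := ⟨G' * H, by rw [hGH, hG', mul_assoc]⟩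
      have key : ∀ j : ℕ, c ^ j ∣ K := by
        intro j
        induction j with
        | zero => rw [pow_zero]; exact one_dvd K
        | succ j ih =>
          by_cases hj : j = 0
          · subst hj
            rw [zero_add, pow_one]
            exact hcK
          · have h1 : ¬ IsUnit (c ^ j) := by
              rw [isUnit_pow_iff hj]
              exact hcu
            have h2 : IsUnit (φ (c ^ j)).leadingCoeff := by
              rw [map_pow, leadingCoeff_pow]
              exact hcl.pow j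
            obtain ⟨h3, h4⟩ := hM (c ^ j) ih h1 h2
            obtain ⟨D, hD⟩ := ih
            obtain ⟨D', hD'⟩ := cut_star ψ h0 hcu (K := K) (G := D) (H := c ^ j)
              (by rw [hD, mul_comm]) S hS h3 h4
            exact ⟨D', by rw [hD, hD', pow_succ]; ring⟩
      obtain ⟨-, hdc⟩ := hM c hcK hcu hcl
      have h1 := key ((ψ K).natDegree + 1)
      have h2 : ψ c ^ ((ψ K).natDegree + 1) ∣ ψ K := by
        rw [← map_pow]
        exact map_dvd ψ h1
      have h3 := natDegree_le_of_dvd h2 (hne hK0)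
      rw [natDegree_pow] at h3
      have h4 : (ψ K).natDegree + 1 ≤ ((ψ K).natDegree + 1) * (ψ c).natDegree :=
        Nat.le_mul_of_pos_right _ (by omega)
      omega
    · have hl : (φ K).leadingCoeff =
          (φ c).leadingCoeff * ((φ G').leadingCoeff * (φ H).leadingCoeff) := by
        rw [hGH, hG', map_mul, map_mul, leadingCoeff_mul, leadingCoeff_mul, mul_assoc]
      rcases hirr.isUnit_or_isUnit hl with h | h
      · exact hcl h
      · apply hna
        rw [hl]
        obtain ⟨u, hu⟩ := h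
        refine ⟨u⁻¹, ?_⟩
        rw [← hu, mul_assoc, Units.mul_inv, mul_one]
  refine ⟨hKu, fun G H hGH => ?_⟩
  by_contra hcon
  rw [not_or] at hcon
  have hl : (φ K).leadingCoeff = (φ G).leadingCoeff * (φ H).leadingCoeff := by
    rw [hGH, map_mul, leadingCoeff_mul]
  rcases hirr.isUnit_or_isUnit hl with h | h
  · exact claim H G (by rw [hGH, mul_comm]) hcon.1 h
  · exact claim G H hGH hcon.2 h

end Pool.Agent.Lib.MP_5bc52d_co.Cut
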