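import Mathlib
import Pool.Agent.Lib.MP_5bc52d_co.Cut.Maps
import Pool.Agent.Lib.MP_5bc52d_co.Cut.Rules
import Pool.Agent.Lib.MP_5bc52d_co.Cyc.Pred

/-!
# Leading coefficients of partition generating functions
-/

open Finset Polynomial

set_option linter.unusedSectionVars false

namespace Pool.Agent.Lib.MP_5bc52d_co.Cut

open Splitting Cyc

variable {P : Type*} [Fintype P] [DecidableEq P]

open Classical in
/-- the largest initial part of `U` on which `w` increases -/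
noncomputable def AL (r : P → P → Prop) (w : P → ℤ) (U : Finset P) : Finset P :=
  U.filter (fun x => ∀ a ∈ U, ∀ b ∈ U, r a b → (b = x ∨ r b x) → w a < w b)

theorem mem_AL {r : P → P → Prop} {w : P → ℤ} {U : Finset P} {x : P} :
    x ∈ AL r w U ↔ x ∈ U ∧ ∀ a ∈ U, ∀ b ∈ U, r a b → (b = x ∨ r b x) → w a < w b := by
  classical
  rw [AL, Finset.mem_filter]

theorem AL_subset {r : P → P → Prop} {w : P → ℤ} {U : Finset P} : AL r w U ⊆ U :=
  fun _ hx => (mem_AL.mp hx).1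

theorem Wk_AL {r : P → P → Prop} (ht : ∀ x y z, r x y → r y z → r x z) {w : P → ℤ}
    {U : Finset P} : Wk r w U (AL r w U) := by
  refine ⟨AL_subset, fun a ha b hb hab => ?_⟩
  obtain ⟨hbU, hb⟩ := mem_AL.mp hb
  refine ⟨mem_AL.mpr ⟨ha, fun a' ha' b' hb' h h' => ?_⟩, hb a ha b hbU hab (Or.inl rfl)⟩
  apply hb a' ha' b' hb' h
  rcases h' with h' | h'
  · exact Or.inr (h' ▸ hab)
  · exact Or.inr (ht _ _ _ h' hab)

theorem Wk_subset_AL {r : P → P → Prop} {w : P → ℤ} {U I : Finset P} (h : Wk r w U I) :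
    I ⊆ AL r w U := by
  intro x hx
  refine mem_AL.mpr ⟨h.1 hx, fun a ha b hb hab h' => ?_⟩
  have hbI : b ∈ I := by
    rcases h' with h' | h'
    · exact h' ▸ hx
    · exact (h.2 b hb x hx h').1
  exact (h.2 a ha b hbI hab).2

section abs
variable {A : Type*} [CommRing A] [IsDomain A]

/-- `φ` peels off initial parts on which `w` increases -/
def Peel (Γ : Finset P → A) (r : P → P → Prop) (w : P → ℤ) (φ : A →+* A[X]) : Prop :=
  ∃ ε : A, (ε = 1 ∨ ε = -1) ∧
    ∀ U, φ (Γ U) = ∑ I ∈ wks r w U, C (ε ^ I.card * Γ (U \ I)) * X ^ I.card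

theorem Peel.lead {Γ : Finset P → A} {r : P → P → Prop} (ht : ∀ x y z, r x y → r y z → r x z)
    {w : P → ℤ} {φ : A →+* A[X]} (h : Peel Γ r w φ) (hΓ : ∀ U, Γ U ≠ 0) (U : Finset P) :
    (φ (Γ U)).natDegree = (AL r w U).card ∧
      Associated (φ (Γ U)).leadingCoeff (Γ (U \ AL r w U)) := by
  obtain ⟨ε, hε, hrec⟩ := h
  have hεu : IsUnit ε := by
    rcases hε with rfl | rfl
    · exact isUnit_one
    · exact isUnit_one.neg
  have hc : (φ (Γ U)).coeff (AL r w U).card =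
      ε ^ (AL r w U).card * Γ (U \ AL r w U) := by
    rw [hrec, finsetSum_coeff, Finset.sum_eq_single (AL r w U)]
    · rw [coeff_C_mul_X_pow, if_pos rfl]
    · intro I hI hne
      rw [coeff_C_mul_X_pow, if_neg]
      intro h1
      apply hne
      exact Finset.eq_of_subset_of_card_le (Wk_subset_AL (mem_wks.mp hI)) h1.le
    · intro h1
      exact absurd (mem_wks.mpr (Wk_AL ht)) h1
  have hc0 : (φ (Γ U)).coeff (AL r w U).card ≠ 0 := by
    rw [hc]
    exact mul_ne_zero (pow_ne_zero _ hεu.ne_zero) (hΓ _)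
  have hd : (φ (Γ U)).natDegree = (AL r w U).card := by
    apply le_antisymm
    · rw [Polynomial.natDegree_le_iff_coeff_eq_zero]
      intro k hk
      rw [hrec, finsetSum_coeff]
      apply Finset.sum_eq_zero
      intro I hI
      rw [coeff_C_mul_X_pow, if_neg]
      have := Finset.card_le_card (Wk_subset_AL (mem_wks.mp hI))
      omega
    · exact Polynomial.le_natDegree_of_ne_zero hc0
  refine ⟨hd, ?_⟩
  rw [leadingCoeff, hd, hc]
  exact (associated_unit_mul_left _ _ (hεu.pow _))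

theorem AL_sdiff {r r' : P → P → Prop} (hr : ∀ x y, r' x y ↔ r y x) {w' : P → ℤ}
    {U A₀ : Finset P} (hA : ∀ a ∈ U, ∀ b ∈ A₀, r a b → a ∈ A₀) :
    AL r' w' (U \ A₀) = AL r' w' U \ A₀ := by
  ext x
  rw [mem_AL, Finset.mem_sdiff, Finset.mem_sdiff, mem_AL]
  constructor
  · rintro ⟨⟨hxU, hxA⟩, h⟩
    refine ⟨⟨hxU, fun a ha b hb hab h' => ?_⟩, hxA⟩
    have hbA : b ∉ A₀ := by
      intro hbA
      rcases h' with h' | h'
      · exact hxA (h' ▸ hbA)
      · exact hxA (hA x hxU b hbA ((hr _ _).mp h'))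
    have haA : a ∉ A₀ := fun haA => hbA (hA b hb a haA ((hr _ _).mp hab))
    exact h a (Finset.mem_sdiff.mpr ⟨ha, haA⟩) b (Finset.mem_sdiff.mpr ⟨hb, hbA⟩) hab h'
  · rintro ⟨⟨hxU, h⟩, hxA⟩
    exact ⟨⟨hxU, hxA⟩, fun a ha b hb hab h' =>
      h a (Finset.mem_sdiff.mp ha).1 b (Finset.mem_sdiff.mp hb).1 hab h'⟩

/-- the corner rule -/
theorem corner_rule {Γ : Finset P → A} {r r' : P → P → Prop}
    (ht : ∀ x y z, r x y → r y z → r x z) (hr : ∀ x y, r' x y ↔ r y x) {w w' : P → ℤ}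
    {φ ψ : A →+* A[X]} (hφ : Peel Γ r w φ) (hψ : Peel Γ r' w' ψ) (hΓ : ∀ U, Γ U ≠ 0)
    (hcomm : ∀ (f : A) (i j : ℕ), (ψ ((φ f).coeff i)).coeff j = (φ ((ψ f).coeff j)).coeff i)
    (hpos : ∀ f : A, f ≠ 0 → ¬ IsUnit f → 1 ≤ (ψ f).natDegree)
    (hφi : Function.Injective φ) (hψi : Function.Injective ψ)
    (U : Finset P) (hd : Disjoint (AL r w U) (AL r' w' U))
    (hirr : Irreducible (Γ (U \ AL r w U))) : Irreducible (Γ U) := by
  have ht' : ∀ x y z, r' x y → r' y z → r' x z := fun x y z h1 h2 =>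
    (hr _ _).mpr (ht _ _ _ ((hr _ _).mp h2) ((hr _ _).mp h1))
  obtain ⟨h1, h2⟩ := hφ.lead ht hΓ U
  obtain ⟨h3, -⟩ := hψ.lead ht' hΓ U
  obtain ⟨h4, -⟩ := hψ.lead ht' hΓ (U \ AL r w U)
  have hirr' : Irreducible (φ (Γ U)).leadingCoeff := (Associated.irreducible_iff h2).mpr hirr
  refine corner_abs φ ψ hcomm hpos hφi hψi (Γ U) (hΓ U) ?_ hirr' ?_
  · intro hu
    obtain ⟨v, hv⟩ := (hu.map φ).exists_right_inv
    have h5 := congrArg Polynomial.leadingCoeff hv
    rw [leadingCoeff_mul, leadingCoeff_one] at h5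
    exact hirr'.not_isUnit (IsUnit.of_mul_eq_one _ h5)
  · obtain ⟨u, hu⟩ := h2
    have h5 : (ψ (φ (Γ U)).leadingCoeff).natDegree = (ψ (Γ (U \ AL r w U))).natDegree := by
      rw [← hu, map_mul, natDegree_mul]
      · have : (ψ (u : A)).natDegree = 0 := natDegree_eq_zero_of_isUnit (u.isUnit.map ψ)
        rw [this, add_zero]
      · intro h
        exact hirr'.ne_zero (hψi (h.trans (map_zero ψ).symm))
      · intro h
        exact u.ne_zero (hψi (h.trans (map_zero ψ).symm))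
    rw [h5, h4, h3, AL_sdiff hr (fun a ha b hb hab => ((Wk_AL ht).2 a ha b hb hab).1),
      Finset.sdiff_eq_self_of_disjoint hd.symm]

end abs

end Pool.Agent.Lib.MP_5bc52d_co.Cut
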