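import Mathlib
import Pool.Agent.Lib.MP_5bc52d_co.Cut.Peel

/-!
# The cut rule
-/

open Finset Polynomial

set_option linter.unusedSectionVars false

namespace Pool.Agent.Lib.MP_5bc52d_co.Cut

open Splitting Cyc

variable {P : Type*} [Fintype P] [DecidableEq P]

theorem exists_top {r : P → P → Prop} (ht : ∀ x y z, r x y → r y z → r x z)
    (hi : ∀ x, ¬ r x x) (C : Finset P) {x : P} (hx : x ∈ C) :
    ∃ z ∈ C, (z = x ∨ r x z) ∧ ∀ t ∈ C, ¬ r z t := by
  have : IsTrans P (fun a b => r b a) := ⟨fun a b c h1 h2 => ht _ _ _ h2 h1⟩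
  have : Std.Irrefl (fun a b : P => r b a) := ⟨fun a h => hi a h⟩
  have hwf : WellFounded (fun a b : P => r b a) := Finite.wellFounded_of_trans_of_irrefl _
  obtain ⟨z, ⟨hz1, hz2⟩, hz3⟩ :=
    hwf.has_min {z : P | z ∈ C ∧ (z = x ∨ r x z)} ⟨x, hx, Or.inl rfl⟩
  refine ⟨z, hz1, hz2, fun t htC hzt => ?_⟩
  refine hz3 t ⟨htC, ?_⟩ hzt
  rcases hz2 with h | h
  · exact Or.inr (h ▸ hzt)
  · exact Or.inr (ht _ _ _ h hzt)

section
variable {Q : Subring R} (hQ : ∀ F : R, F ∈ Q ↔ IsQS F)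
include hQ

theorem unit_lead {φ ψ : Q →+* Q[X]} (gφ : Graded Q φ) (gψ : Graded Q ψ)
    (hpair : ∀ (b : ℕ) (f : Q), f ∈ homQ Q b → (φ f).coeff b = (ψ f).coeff b)
    {n : ℕ} {K H : Q} (hK0 : K ≠ 0) (hK : K ∈ homQ Q n) (hHK : H ∣ K) (hH : ¬ IsUnit H)
    (hu : IsUnit (φ H).leadingCoeff) :
    IsUnit (ψ H).leadingCoeff ∧ 1 ≤ (ψ H).natDegree := by
  have hD : IsDomain R := NoZeroDivisors.to_isDomain R
  have hDQ : IsDomain Q := inferInstance
  obtain ⟨G, hG⟩ := hHK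
  obtain ⟨a, b, -, ha, -⟩ := homQ_factor hQ (by rw [← hG]; exact hK0) (hG ▸ hK)
  have hH0 : H ≠ 0 := by rintro rfl; rw [zero_mul] at hG; exact hK0 hG
  have hk : (φ H).natDegree ≤ a := by
    rw [Polynomial.natDegree_le_iff_coeff_eq_zero]
    intro k hk
    exact (gφ a H ha k).2 hk
  have h1 := (gφ a H ha _).1 hk
  have h2 : a - (φ H).natDegree = 0 :=
    homQ_unique hu.ne_zero h1 (isUnit_mem_homQ hQ hu)
  have h3 : (φ H).natDegree = a := by omega
  have h4 : (ψ H).coeff a = (φ H).leadingCoeff := by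
    rw [← hpair a H ha, leadingCoeff, h3]
  have h5 : (ψ H).natDegree = a := by
    apply le_antisymm
    · rw [Polynomial.natDegree_le_iff_coeff_eq_zero]
      intro k hk
      exact (gψ a H ha k).2 hk
    · apply Polynomial.le_natDegree_of_ne_zero
      rw [h4]
      exact hu.ne_zero
  refine ⟨?_, ?_⟩
  · rw [leadingCoeff, h5, h4]
    exact hu
  · rw [h5]
    by_contra h6
    have h7 : a = 0 := by omega
    subst h7
    exact hH (isUnit_of_homQ_zero hQ ha hH0)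

theorem card_eq_of_associated {Γ : Finset P → Q} (hΓ : ∀ U, Γ U ≠ 0)
    (hhom : ∀ U, Γ U ∈ homQ Q U.card) {U V : Finset P} (h : Associated (Γ U) (Γ V)) :
    U.card = V.card := by
  obtain ⟨u, hu⟩ := h
  have h1 := homQ_mul (hhom U) (isUnit_mem_homQ hQ u.isUnit)
  rw [hu] at h1
  exact homQ_unique (hΓ V) h1 (hhom V)

theorem nonunit_of_nonempty {Γ : Finset P → Q} (hΓ : ∀ U, Γ U ≠ 0)
    (hhom : ∀ U, Γ U ∈ homQ Q U.card) {U : Finset P} (hU : U.Nonempty) : ¬ IsUnit (Γ U) := by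
  intro hu
  have h1 := homQ_unique (hΓ U) (hhom U) (isUnit_mem_homQ hQ hu)
  exact (Finset.card_pos.mpr hU).ne' h1

/-- the cut rule -/
theorem cut_rule {Γ : Finset P → Q} {r r' : P → P → Prop}
    (ht : ∀ x y z, r x y → r y z → r x z) (hi : ∀ x, ¬ r x x)
    (hr : ∀ x y, r' x y ↔ r y x) {v : P → ℤ} {φ ψ : Q →+* Q[X]}
    (hφ : Peel Γ r (-v) φ) (hψ : Peel Γ r' v ψ) (hΓ : ∀ U, Γ U ≠ 0)
    (h0 : ∀ f, (ψ f).coeff 0 = f) (gφ : Graded Q φ) (gψ : Graded Q ψ)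
    (hpair : ∀ (b : ℕ) (f : Q), f ∈ homQ Q b → (φ f).coeff b = (ψ f).coeff b)
    (hhom : ∀ U, Γ U ∈ homQ Q U.card)
    (hmul : ∀ U V : Finset P, Disjoint U V → (∀ x ∈ U, ∀ y ∈ V, ¬ r x y ∧ ¬ r y x) →
      Γ (U ∪ V) = Γ U * Γ V)
    (U C : Finset P) (m : P) (hmU : m ∈ U) (hmax : ∀ x ∈ U, x = m ∨ r x m) (hCU : C ⊆ U)
    (hmC : m ∉ C) (hCne : C.Nonempty)
    (hsep : ∀ x ∈ C, ∀ y ∈ U, y ∉ C → y ≠ m → ¬ r x y ∧ ¬ r y x)
    (hcov : ∀ x ∈ C, (∀ z ∈ U, r x z → ¬ r z m) → v x < v m)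
    (hirr : Irreducible (Γ (U \ AL r (-v) U))) : Irreducible (Γ U) := by
  classical
  have hD : IsDomain R := NoZeroDivisors.to_isDomain R
  have hDQ : IsDomain Q := inferInstance
  have ht' : ∀ x y z, r' x y → r' y z → r' x z := fun x y z h1 h2 =>
    (hr _ _).mpr (ht _ _ _ ((hr _ _).mp h2) ((hr _ _).mp h1))
  -- tops of `C` are joined to `m`
  have htop : ∀ z ∈ C, (∀ t ∈ C, ¬ r z t) → r z m ∧ v z < v m := by
    intro z hz hzt
    have hzm : z ≠ m := fun h => hmC (h ▸ hz)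
    refine ⟨(hmax z (hCU hz)).resolve_left hzm, hcov z hz (fun t htU hzt' htm => ?_)⟩
    by_cases htC : t ∈ C
    · exact hzt t htC hzt'
    · exact (hsep z hz t htU htC (fun h => hi m (h ▸ htm))).1 hzt'
  have hmA : m ∉ AL r (-v) U := by
    intro hm
    obtain ⟨x, hx⟩ := hCne
    obtain ⟨z, hz, -, hzt⟩ := exists_top ht hi C hx
    obtain ⟨h1, h2⟩ := htop z hz hzt
    have h3 := (mem_AL.mp hm).2 z (hCU hz) m hmU h1 (Or.inl rfl)
    simp only [Pi.neg_apply] at h3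
    omega
  have hF : ∀ F ∈ wks r' v U, F ≠ ∅ → m ∈ F ∧ Disjoint F C := by
    intro F hF hne
    have hW := mem_wks.mp hF
    obtain ⟨b, hb⟩ := Finset.nonempty_iff_ne_empty.mpr hne
    have hmF : m ∈ F := by
      rcases hmax b (hW.1 hb) with h | h
      · exact h ▸ hb
      · exact (hW.2 m hmU b hb ((hr _ _).mpr h)).1
    refine ⟨hmF, ?_⟩
    rw [Finset.disjoint_left]
    intro x hxF hxC
    obtain ⟨z, hz, hzx, hzt⟩ := exists_top ht hi C hxC
    have hzF : z ∈ F := by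
      rcases hzx with h | h
      · exact h ▸ hxF
      · exact (hW.2 z (hCU hz) x hxF ((hr _ _).mpr h)).1
    obtain ⟨h1, h2⟩ := htop z hz hzt
    have h3 := (hW.2 m hmU z hzF ((hr _ _).mpr h1)).2
    omega
  have hUne : U.Nonempty := ⟨m, hmU⟩
  obtain ⟨hd1, hl1⟩ := hφ.lead ht hΓ U
  obtain ⟨-, hl2⟩ := hφ.lead ht hΓ C
  have hirr' : Irreducible (φ (Γ U)).leadingCoeff := (Associated.irreducible_iff hl1).mpr hirr
  have hψi : Function.Injective ψ := by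
    intro f g hfg
    rw [← h0 f, ← h0 g, hfg]
  obtain ⟨ε, hε, hrec⟩ := hψ
  refine cut_abs φ ψ h0 hψi (Γ U) (Γ C) (hΓ U) (nonunit_of_nonempty hQ hΓ hhom hUne)
    (nonunit_of_nonempty hQ hΓ hhom hCne)
    (fun H hHK hH hu => unit_lead hQ gφ gψ hpair (hΓ U) (hhom U) hHK hH hu) hirr' ?_
    (∑ F ∈ (wks r' v U).erase ∅, Polynomial.C (ε ^ F.card * Γ ((U \ F) \ C)) * X ^ F.card) ?_
  · intro hass
    have h1 : Associated (Γ (U \ AL r (-v) U)) (Γ (C \ AL r (-v) C)) :=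
      hl1.symm.trans (hass.trans hl2)
    have h2 := card_eq_of_associated hQ hΓ hhom h1
    have h3 : C \ AL r (-v) C ⊆ (U \ AL r (-v) U).erase m := by
      intro x hx
      rw [Finset.mem_sdiff] at hx
      rw [Finset.mem_erase, Finset.mem_sdiff]
      refine ⟨fun h => hmC (h ▸ hx.1), hCU hx.1, fun h => hx.2 ?_⟩
      refine mem_AL.mpr ⟨hx.1, fun a ha b hb => (mem_AL.mp h).2 a (hCU ha) b (hCU hb)⟩
    have h4 := Finset.card_le_card h3
    have h5 : m ∈ U \ AL r (-v) U := Finset.mem_sdiff.mpr ⟨hmU, hmA⟩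
    rw [Finset.card_erase_of_mem h5] at h4
    have h6 := Finset.card_pos.mpr ⟨m, h5⟩
    omega
  · have hmem : ∅ ∈ wks r' v U := by
      rw [mem_wks]
      exact ⟨Finset.empty_subset _, fun a _ b hb => absurd hb (Finset.notMem_empty _)⟩
    rw [hrec, ← Finset.add_sum_erase _ _ hmem, Finset.mul_sum]
    congr 1
    · simp
    · apply Finset.sum_congr rfl
      intro F hF'
      rw [Finset.mem_erase] at hF'
      obtain ⟨hmF, hFC⟩ := hF F hF'.2 hF'.1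
      have hsub : C ⊆ U \ F := by
        intro x hx
        exact Finset.mem_sdiff.mpr ⟨hCU hx, fun h => Finset.disjoint_left.mp hFC h hx⟩
      have h1 : Γ (U \ F) = Γ C * Γ ((U \ F) \ C) := by
        rw [← hmul C ((U \ F) \ C) Finset.disjoint_sdiff, Finset.union_sdiff_of_subset hsub]
        intro x hx y hy
        rw [Finset.mem_sdiff, Finset.mem_sdiff] at hy
        exact hsep x hx y hy.1.1 hy.2 (fun h => hy.1.2 (h ▸ hmF))
      rw [h1]
      simp only [C_mul]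
      ring

end

end Pool.Agent.Lib.MP_5bc52d_co.Cut
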