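import Mathlib
import Pool.Agent.Lib.MP_5bc52d_co.Cut.Cut

/-!
# The four peeling maps for generating functions of labelled posets
-/

open Finset Polynomial

set_option linter.unusedSectionVars false

namespace Pool.Agent.Lib.MP_5bc52d_co.Cut

open Splitting Cyc

variable {P : Type*} [Fintype P] [DecidableEq P] [PartialOrder P]

/-- the conditions on a partition -/
def Par (ω : P → ℕ) (U : Finset P) (f : P → ℕ) : Prop :=
  ∀ a ∈ U, ∀ b ∈ U, a < b → f a ≤ f b ∧ (ω b < ω a → f a < f b)

theorem Par_on (ω : P → ℕ) (U : Finset P) : On U (Par ω U) := by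
  intro f f' h
  constructor
  · intro hf a ha b hb hab
    rw [← h a ha, ← h b hb]
    exact hf a ha b hb hab
  · intro hf a ha b hb hab
    rw [h a ha, h b hb]
    exact hf a ha b hb hab

theorem Gam_eq_GP (ω : P → ℕ) (U : Finset P) : Gam ω U = GP U (Par ω U) := by
  classical
  ext m
  rw [coeff_Gam, coeff_GP]
  congr 1
  rw [← Fintype.card_coe, ← Nat.card_eq_fintype_card]
  apply Nat.card_congr
  apply Equiv.subtypeEquivRight
  intro f
  rw [Finset.mem_filter, mem_maps]
  exact ⟨fun h => ⟨⟨h.1, h.2.2⟩, h.2.1⟩, fun h => ⟨h.1.1, h.2, h.1.2⟩⟩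

theorem Gam_mul (ω : P → ℕ) {U V : Finset P} (hd : Disjoint U V)
    (h : ∀ x ∈ U, ∀ y ∈ V, ¬ x < y ∧ ¬ y < x) : Gam ω (U ∪ V) = Gam ω U * Gam ω V := by
  rw [Gam_eq_GP, Gam_eq_GP, Gam_eq_GP]
  apply GP_mul hd (Par_on ω U) (Par_on ω V)
  intro f
  constructor
  · intro hf
    exact ⟨fun a ha b hb => hf a (Finset.mem_union_left _ ha) b (Finset.mem_union_left _ hb),
      fun a ha b hb => hf a (Finset.mem_union_right _ ha) b (Finset.mem_union_right _ hb)⟩
  · rintro ⟨h1, h2⟩ a ha b hb hab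
    rw [Finset.mem_union] at ha hb
    rcases ha with ha | ha
    · rcases hb with hb | hb
      · exact h1 a ha b hb hab
      · exact absurd hab (h a ha b hb).1
    · rcases hb with hb | hb
      · exact absurd hab (h b hb a ha).2
      · exact h2 a ha b hb hab

variable {Q : Subring R} (hQ : ∀ F : R, F ∈ Q ↔ IsQS F)

theorem GamQ_mul (ω : P → ℕ) (U V : Finset P) (hd : Disjoint U V)
    (h : ∀ x ∈ U, ∀ y ∈ V, ¬ x < y ∧ ¬ y < x) :
    GamQ hQ ω (U ∪ V) = GamQ hQ ω U * GamQ hQ ω V :=
  Subtype.ext (Gam_mul ω hd h)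

theorem GamQ_ne_zero (ω : P → ℕ) (U : Finset P) : GamQ hQ ω U ≠ 0 := fun h =>
  Gam_ne_zero ω U (congrArg Subtype.val h)

theorem GamQ_homQ (ω : P → ℕ) (U : Finset P) : GamQ hQ ω U ∈ homQ Q U.card := by
  intro m hm
  change MvPowerSeries.coeff m (Gam ω U) = 0
  rw [Gam_eq_GP]
  by_contra h
  exact hm (GP_deg h)

/-- the labels, with a sign -/
def wt (ω : P → ℕ) : Bool → P → ℤ
  | true => fun p => (ω p : ℤ)
  | false => fun p => -(ω p : ℤ)

theorem wt_not (ω : P → ℕ) (k : Bool) : wt ω (!k) = - wt ω k := by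
  funext p
  cases k
  · simp [wt]
  · simp [wt]

theorem wt_lt (ω : P → ℕ) (k : Bool) (a b : P) :
    wt ω k a < wt ω k b ↔ (if k then ω a < ω b else ω b < ω a) := by
  cases k
  · simp [wt]
  · simp [wt]

theorem wt_inj {ω : P → ℕ} (hω : Function.Injective ω) (k : Bool) :
    Function.Injective (wt ω k) := by
  intro a b h
  apply hω
  cases k
  · simpa [wt] using h
  · simpa [wt] using h

/-- the maps removing initial parts -/
noncomputable def lo (hQ : ∀ F : R, F ∈ Q ↔ IsQS F) : Bool → Q →+* Q[X]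
  | true => (bottom hQ).E
  | false => (bottom hQ).N

/-- the maps removing final parts -/
noncomputable def hi (hQ : ∀ F : R, F ∈ Q ↔ IsQS F) : Bool → Q →+* Q[X]
  | true => (top hQ).E
  | false => (top hQ).N

theorem peel_lo {ω : P → ℕ} (hω : Function.Injective ω) (k : Bool) :
    Peel (GamQ hQ ω) (fun a b : P => a < b) (wt ω k) (lo hQ k) := by
  cases k
  · refine ⟨-1, Or.inr rfl, fun U => ?_⟩
    have h := N_Gamma (bottom hQ) (GamQ hQ ω) (r := fun a b : P => a < b)
      (ω := fun p => (ω p : ℤ)) (fun x => lt_irrefl x)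
      (fun a b h => hω (by simpa using h)) (bottom_rec hQ ω hω) U
    change (bottom hQ).N _ = _
    rw [h]
    have h2 : (-fun p : P => (ω p : ℤ)) = wt ω false := by
      funext p
      simp [wt]
    rw [h2]
    apply Finset.sum_congr rfl
    intro I _
    rw [C_mul, C_pow, C_neg, C_1]
    ring
  · refine ⟨1, Or.inl rfl, fun U => ?_⟩
    have h := E_Gamma (bottom hQ) (GamQ hQ ω) (r := fun a b : P => a < b)
      (ω := fun p => (ω p : ℤ)) (bottom_rec hQ ω hω) U
    change (bottom hQ).E _ = _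
    rw [h]
    apply Finset.sum_congr rfl
    intro I _
    rw [one_pow, one_mul]

theorem peel_hi {ω : P → ℕ} (hω : Function.Injective ω) (k : Bool) :
    Peel (GamQ hQ ω) (fun a b : P => b < a) (wt ω (!k)) (hi hQ k) := by
  cases k
  · refine ⟨-1, Or.inr rfl, fun U => ?_⟩
    have h := N_Gamma (top hQ) (GamQ hQ ω) (r := fun a b : P => b < a)
      (ω := fun p => -(ω p : ℤ)) (fun x => lt_irrefl x)
      (fun a b h => hω (by simpa using h)) (top_rec hQ ω hω) U
    change (top hQ).N _ = _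
    rw [h]
    have h2 : (-fun p : P => -(ω p : ℤ)) = wt ω (!false) := by
      funext p
      simp [wt]
    rw [h2]
    apply Finset.sum_congr rfl
    intro I _
    rw [C_mul, C_pow, C_neg, C_1]
    ring
  · refine ⟨1, Or.inl rfl, fun U => ?_⟩
    have h := E_Gamma (top hQ) (GamQ hQ ω) (r := fun a b : P => b < a)
      (ω := fun p => -(ω p : ℤ)) (top_rec hQ ω hω) U
    change (top hQ).E _ = _
    rw [h]
    apply Finset.sum_congr rfl
    intro I _
    rw [one_pow, one_mul]

theorem lo_zero (k : Bool) (f : Q) : (lo hQ k f).coeff 0 = f := by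
  cases k
  · exact coeff_zero_N _ f
  · change ((bottom hQ).E f).coeff 0 = f
    rw [coeff_E, (bottom hQ).qp_zero]

theorem hi_zero (k : Bool) (f : Q) : (hi hQ k f).coeff 0 = f := by
  cases k
  · exact coeff_zero_N _ f
  · change ((top hQ).E f).coeff 0 = f
    rw [coeff_E, (top hQ).qp_zero]

theorem lo_inj (k : Bool) : Function.Injective (lo hQ k) := by
  intro f g h
  rw [← lo_zero hQ k f, ← lo_zero hQ k g, h]

theorem hi_inj (k : Bool) : Function.Injective (hi hQ k) := by
  intro f g h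
  rw [← hi_zero hQ k f, ← hi_zero hQ k g, h]

theorem pos_E {A : Type*} [CommRing A] (S : Splitting A) (f : A) (h0 : f ≠ 0)
    (hu : ¬ IsUnit f) : 1 ≤ (S.E f).natDegree := by
  by_contra h
  apply hu
  apply S.unit f h0
  intro k hk
  rw [← S.coeff_E, Polynomial.coeff_eq_zero_of_natDegree_lt (by omega)]

theorem pos_N {A : Type*} [CommRing A] (S : Splitting A) (f : A) (h0 : f ≠ 0)
    (hu : ¬ IsUnit f) : 1 ≤ (S.N f).natDegree := by
  by_contra h
  have h1 : S.N f = C f := by
    rw [Polynomial.eq_C_of_natDegree_eq_zero (by omega : (S.N f).natDegree = 0), coeff_zero_N]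
  have h2 : S.E f = C f := by
    have h3 := S.Ehat_N f
    rw [h1, Ehat_C] at h3
    exact h3
  have h4 := pos_E S f h0 hu
  rw [h2, natDegree_C] at h4
  omega

theorem lo_pos (k : Bool) (f : Q) (h0 : f ≠ 0) (hu : ¬ IsUnit f) :
    1 ≤ (lo hQ k f).natDegree := by
  cases k
  · exact pos_N _ f h0 hu
  · exact pos_E _ f h0 hu

theorem hi_pos (k : Bool) (f : Q) (h0 : f ≠ 0) (hu : ¬ IsUnit f) :
    1 ≤ (hi hQ k f).natDegree := by
  cases k
  · exact pos_N _ f h0 hu
  · exact pos_E _ f h0 hu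

theorem lo_graded (k : Bool) : Graded Q (lo hQ k) := by
  cases k
  · exact graded_N (bottom_qp_homQ hQ)
  · exact graded_E (bottom_qp_homQ hQ)

theorem hi_graded (k : Bool) : Graded Q (hi hQ k) := by
  cases k
  · exact graded_N (top_qp_homQ hQ)
  · exact graded_E (top_qp_homQ hQ)

theorem lo_hi_comm (j k : Bool) : Comm (lo hQ j) (hi hQ k) := by
  cases j
  · cases k
    · exact comm_NN hQ
    · exact comm_NE hQ
  · cases k
    · exact comm_EN hQ
    · exact comm_EE hQ

theorem lo_hi_pair (k : Bool) (b : ℕ) (f : Q) (hf : f ∈ homQ Q b) :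
    (lo hQ k f).coeff b = (hi hQ k f).coeff b := by
  cases k
  · exact pair_N hQ b f hf
  · exact pair_E hQ b f hf

end Pool.Agent.Lib.MP_5bc52d_co.Cut
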