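import Mathlib
import Pool.Agent.Lib.MP_5bc52d_co.Cut.Inst

/-!
# Passing to a subposet, and the peeling rules for labelled posets
-/

open Finset Polynomial

set_option linter.unusedSectionVars false

namespace Pool.Agent.Lib.MP_5bc52d_co.Cut

open Splitting Cyc

variable {P : Type*} [Fintype P] [DecidableEq P] [PartialOrder P]

theorem Gam_subtype (ω : P → ℕ) (V : Finset P) :
    Gam ω V = Gam (fun x : {x // x ∈ V} => ω x) univ := by
  ext m
  rw [coeff_Gam, coeff_Gam]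
  congr 1
  have hc : ∀ f : P → ℕ, cnt (univ : Finset {x // x ∈ V}) (fun x => f x) = cnt V f := by
    intro f
    rw [cnt, cnt]
    exact Finset.sum_coe_sort V (fun p => Finsupp.single (f p) 1)
  refine Nat.card_congr (Equiv.ofBijective
    (fun f : Sol ω V m => (⟨fun x : {x // x ∈ V} => f.1 x, ?_⟩ :
      Sol (fun x : {x // x ∈ V} => ω x) univ m)) ⟨?_, ?_⟩)
  · obtain ⟨f, hf⟩ := f
    refine ⟨fun p hp => absurd (Finset.mem_univ p) hp, fun a _ b _ hab => ?_, ?_⟩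
    · exact hf.2.1 a a.2 b b.2 hab
    · rw [hc, hf.2.2]
  · rintro ⟨f, hf⟩ ⟨f', hf'⟩ h
    rw [Subtype.mk.injEq] at h ⊢
    funext p
    by_cases hp : p ∈ V
    · exact congrFun h ⟨p, hp⟩
    · rw [hf.1 p hp, hf'.1 p hp]
  · rintro ⟨f, hf⟩
    set f' : P → ℕ := fun p => if h : p ∈ V then f ⟨p, h⟩ else 0 with hf'
    have hff : (fun x : {x // x ∈ V} => f' x) = f := by
      funext x
      simp only [hf', dif_pos x.2]
    refine ⟨⟨f', fun p hp => dif_neg hp, fun a ha b hb hab => ?_, ?_⟩, ?_⟩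
    · have := hf.2.1 ⟨a, ha⟩ (Finset.mem_univ _) ⟨b, hb⟩ (Finset.mem_univ _) hab
      simp only [hf', dif_pos ha, dif_pos hb]
      exact this
    · rw [← hc, hff]
      exact hf.2.2
    · exact Subtype.ext hff

variable {Q : Subring R} (hQ : ∀ F : R, F ∈ Q ↔ IsQS F)
include hQ

theorem GamQ_subtype (ω : P → ℕ) (V : Finset P) :
    GamQ hQ ω V = GamQ hQ (fun x : {x // x ∈ V} => ω x) univ :=
  Subtype.ext (Gam_subtype ω V)

theorem rule_low {ω : P → ℕ} (hω : Function.Injective ω) (U : Finset P) (j k : Bool)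
    (hd : Disjoint (AL (fun a b : P => a < b) (wt ω j) U)
      (AL (fun a b : P => b < a) (wt ω (!k)) U))
    (hirr : Irreducible (GamQ hQ ω (U \ AL (fun a b : P => a < b) (wt ω j) U))) :
    Irreducible (GamQ hQ ω U) := by
  have hD : IsDomain R := NoZeroDivisors.to_isDomain R
  have hDQ : IsDomain Q := inferInstance
  exact corner_rule (r := fun a b : P => a < b) (r' := fun a b : P => b < a)
    (fun x y z h1 h2 => lt_trans h1 h2) (fun x y => Iff.rfl) (peel_lo hQ hω j)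
    (peel_hi hQ hω k) (GamQ_ne_zero hQ ω) (lo_hi_comm hQ j k) (hi_pos hQ k) (lo_inj hQ j)
    (hi_inj hQ k) U hd hirr

theorem rule_high {ω : P → ℕ} (hω : Function.Injective ω) (U : Finset P) (j k : Bool)
    (hd : Disjoint (AL (fun a b : P => a < b) (wt ω j) U)
      (AL (fun a b : P => b < a) (wt ω (!k)) U))
    (hirr : Irreducible (GamQ hQ ω (U \ AL (fun a b : P => b < a) (wt ω (!k)) U))) :
    Irreducible (GamQ hQ ω U) := by
  have hD : IsDomain R := NoZeroDivisors.to_isDomain R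
  have hDQ : IsDomain Q := inferInstance
  exact corner_rule (r := fun a b : P => b < a) (r' := fun a b : P => a < b)
    (fun x y z h1 h2 => lt_trans h2 h1) (fun x y => Iff.rfl) (peel_hi hQ hω k)
    (peel_lo hQ hω j) (GamQ_ne_zero hQ ω) (lo_hi_comm hQ j k).symm (lo_pos hQ j) (hi_inj hQ k)
    (lo_inj hQ j) U hd.symm hirr

theorem rule_greatest {ω : P → ℕ} (hω : Function.Injective ω) (U C : Finset P) (m : P)
    (k : Bool) (hmU : m ∈ U) (hmax : ∀ x ∈ U, x ≤ m) (hCne : C.Nonempty)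
    (hC : ∀ x ∈ C, x ∈ U ∧ x ≠ m)
    (hsep : ∀ x ∈ C, ∀ y ∈ U, y ≠ m → (x < y ∨ y < x) → y ∈ C)
    (hcov : ∀ x ∈ C, (∀ z ∈ U, x < z → ¬ z < m) → wt ω k x < wt ω k m)
    (hirr : Irreducible (GamQ hQ ω (U \ AL (fun a b : P => a < b) (wt ω (!k)) U))) :
    Irreducible (GamQ hQ ω U) := by
  have hφ := peel_lo hQ hω (!k)
  have hψ := peel_hi hQ hω (!k)
  rw [Bool.not_not] at hψ
  rw [wt_not] at hφ hirr
  refine cut_rule hQ (r := fun a b : P => a < b) (r' := fun a b : P => b < a)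
    (fun x y z h1 h2 => lt_trans h1 h2) (fun x => lt_irrefl x) (fun x y => Iff.rfl)
    hφ hψ (GamQ_ne_zero hQ ω) (hi_zero hQ (!k)) (lo_graded hQ (!k)) (hi_graded hQ (!k))
    (lo_hi_pair hQ (!k)) (GamQ_homQ hQ ω) (GamQ_mul hQ ω) U C m hmU
    (fun x hx => (hmax x hx).eq_or_lt) (fun x hx => (hC x hx).1) (fun h => (hC m h).2 rfl) hCne
    ?_ hcov hirr
  intro x hx y hy hyC hym
  exact ⟨fun h => hyC (hsep x hx y hy hym (Or.inl h)),
    fun h => hyC (hsep x hx y hy hym (Or.inr h))⟩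

theorem rule_least {ω : P → ℕ} (hω : Function.Injective ω) (U C : Finset P) (m : P)
    (k : Bool) (hmU : m ∈ U) (hmin : ∀ x ∈ U, m ≤ x) (hCne : C.Nonempty)
    (hC : ∀ x ∈ C, x ∈ U ∧ x ≠ m)
    (hsep : ∀ x ∈ C, ∀ y ∈ U, y ≠ m → (x < y ∨ y < x) → y ∈ C)
    (hcov : ∀ x ∈ C, (∀ z ∈ U, z < x → ¬ m < z) → wt ω k m < wt ω k x)
    (hirr : Irreducible (GamQ hQ ω (U \ AL (fun a b : P => b < a) (wt ω k) U))) :
    Irreducible (GamQ hQ ω U) := by
  have hφ := peel_hi hQ hω (!k)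
  have hψ := peel_lo hQ hω (!k)
  rw [Bool.not_not] at hφ
  have h1 : wt ω k = - wt ω (!k) := by
    rw [wt_not, neg_neg]
  rw [h1] at hφ hirr
  refine cut_rule hQ (r := fun a b : P => b < a) (r' := fun a b : P => a < b)
    (fun x y z h1 h2 => lt_trans h2 h1) (fun x => lt_irrefl x) (fun x y => Iff.rfl)
    hφ hψ (GamQ_ne_zero hQ ω) (lo_zero hQ (!k)) (hi_graded hQ (!k)) (lo_graded hQ (!k))
    (fun b f hf => (lo_hi_pair hQ (!k) b f hf).symm) (GamQ_homQ hQ ω) ?_ U C m hmU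
    (fun x hx => (hmin x hx).eq_or_lt.imp Eq.symm id) (fun x hx => (hC x hx).1)
    (fun h => (hC m h).2 rfl) hCne ?_ ?_ hirr
  · intro V W hd h
    exact GamQ_mul hQ ω V W hd (fun x hx y hy => (h x hx y hy).symm)
  · intro x hx y hy hyC hym
    exact ⟨fun h => hyC (hsep x hx y hy hym (Or.inr h)),
      fun h => hyC (hsep x hx y hy hym (Or.inl h))⟩
  · intro x hx h
    have h2 := hcov x hx h
    rw [wt_not, Pi.neg_apply, Pi.neg_apply]
    omega

end Pool.Agent.Lib.MP_5bc52d_co.Cut
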